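import Pool.Agent.X197.NF

set_option autoImplicit false

open CategoryTheory Topology Set

universe u

namespace Pool.Agent.Results.MP_6bfe6b_gt.FinitePreimages

open Pool.Agent.X197.NF

/-- `F` preserves finite preimages: it preserves the bicommutative squares with `f'` and `f`
injective and `X` finite. -/
def PreservesFinitePreimages (F : CompHaus.{u} ⥤ CompHaus.{u}) : Prop :=
  ∀ ⦃X' Y' X Y : CompHaus.{u}⦄ (f' : X' ⟶ Y') (f : X ⟶ Y) (p : X' ⟶ X) (q : Y' ⟶ Y), Finite X →
    Function.Injective (fn f') → Function.Injective (fn f) → Bicommutative f' f p q →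
    Bicommutative (F.map f') (F.map f) (F.map p) (F.map q)

theorem exists_fun {Y : Type u} [TopologicalSpace Y] [CompactSpace Y] [T2Space Y] {Z : Set Y}
    (hZ : IsClosed Z) {y : Y} (hy : y ∉ Z) :
    ∃ φ : C(Y, unitInterval), (∀ z ∈ Z, φ z = 0) ∧ φ y ≠ 0 := by
  obtain ⟨g, hg0, hg1, hg⟩ := exists_continuous_zero_one_of_isClosed hZ
    (isClosed_singleton (x := y)) (disjoint_singleton_right.mpr hy)
  refine ⟨⟨fun z => ⟨g z, hg z⟩, by fun_prop⟩, fun z hz => Subtype.ext (hg0 hz), fun h => ?_⟩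
  have h2 : g y = 0 := congrArg Subtype.val h
  rw [hg1 (mem_singleton y)] at h2
  exact one_ne_zero h2

/-- For every closed subset `Z` of a compactum `Y` there is a map of `Y` to a compactum for which
`Z` is the preimage of a point. -/
theorem exists_collapse (Y : CompHaus.{u}) (Z : Set Y) (hZ : IsClosed Z) :
    ∃ (Q : CompHaus.{u}) (o : Q) (r : Y ⟶ Q), ∀ y : Y, fn r y = o ↔ y ∈ Z := by
  let Φ : Type u := {φ : C(Y, unitInterval) // ∀ z ∈ Z, φ z = 0}
  let Q : CompHaus.{u} := CompHaus.of (Φ → unitInterval)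
  let r : Y ⟶ Q := CompHausLike.ofHom _ (⟨fun y φ => φ.1 y,
    continuous_pi fun φ => φ.1.continuous⟩ : C(Y, Φ → unitInterval))
  refine ⟨Q, (show Φ → unitInterval from fun _ => 0), r, fun y => ⟨fun h => ?_, fun h => ?_⟩⟩
  · by_contra hy
    obtain ⟨φ, hφ, hφy⟩ := exists_fun hZ hy
    exact hφy (congrFun h ⟨φ, hφ⟩)
  · show (fun φ : Φ => φ.1 y) = fun _ => 0
    funext φ
    exact φ.2 y h

/-- **Positive answer to Q1**: every monomorphic (in particular every mec) functor preserving
finite preimages preserves preimages. -/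
theorem result (F : CompHaus.{u} ⥤ CompHaus.{u}) (hF : Monomorphic F)
    (h : PreservesFinitePreimages F) : PreservesPreimages F := by
  intro X' Y' X Y f' f p q hf' hf hsq
  have hcomm : ∀ x', fn q (fn f' x') = fn f (fn p x') := fun x' =>
    (congrArg (fun g => fn g x') hsq.1).symm
  have hZ : IsClosed (range (fn f)) :=
    (isCompact_range (ConcreteCategory.hom f).continuous).isClosed
  obtain ⟨Q, o, r, hr⟩ := exists_collapse Y (range (fn f)) hZ
  let One : CompHaus.{u} := CompHaus.of PUnit.{u + 1}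
  let ι : One ⟶ Q := CompHausLike.ofHom _ (⟨fun _ => o, continuous_const⟩ : C(PUnit.{u + 1}, Q))
  let c' : X' ⟶ One :=
    CompHausLike.ofHom _ (⟨fun _ => PUnit.unit, continuous_const⟩ : C(X', PUnit.{u + 1}))
  let c : X ⟶ One :=
    CompHausLike.ofHom _ (⟨fun _ => PUnit.unit, continuous_const⟩ : C(X, PUnit.{u + 1}))
  have hro : ∀ x : X, fn r (fn f x) = o := fun x => (hr _).mpr ⟨x, rfl⟩
  have hfr : f ≫ r = c ≫ ι := by
    ext x
    exact hro x
  have hbic : Bicommutative f' ι c' (q ≫ r) := by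
    refine ⟨?_, fun a => ?_⟩
    · ext x'
      show o = fn r (fn q (fn f' x'))
      rw [hcomm, hro]
    · apply Subset.antisymm
      · rintro _ ⟨x', -, rfl⟩
        show fn r (fn q (fn f' x')) = o
        rw [hcomm, hro]
      · intro y' hy'
        have h1 : fn r (fn q y') = o := hy'
        obtain ⟨x, hx⟩ := (hr _).mp h1
        have h2 : y' ∈ fn q ⁻¹' {fn f x} := hx.symm
        rw [← hsq.2 x] at h2
        obtain ⟨x', -, hx'⟩ := h2
        exact ⟨x', Subsingleton.elim (α := PUnit.{u + 1}) _ _, hx'⟩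
  have hfin : Finite One := inferInstanceAs (Finite PUnit.{u + 1})
  have hι : Function.Injective (fn ι) := fun a b _ => Subsingleton.elim (α := PUnit.{u + 1}) a b
  have hF2 := h f' ι c' (q ≫ r) hfin hf' hι hbic
  have hFcomm : F.map p ≫ F.map f = F.map f' ≫ F.map q := by
    rw [← F.map_comp, ← F.map_comp, hsq.1]
  have hFcomm' : ∀ b, fn (F.map q) (fn (F.map f') b) = fn (F.map f) (fn (F.map p) b) := fun b =>
    (congrArg (fun g => fn g b) hFcomm).symm
  refine ⟨hFcomm, fun a => ?_⟩
  apply Subset.antisymm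
  · rintro _ ⟨b, hb, rfl⟩
    have hb' : fn (F.map p) b = a := hb
    show fn (F.map q) (fn (F.map f') b) = fn (F.map f) a
    rw [hFcomm', hb']
  · intro b hb
    have hb' : fn (F.map q) b = fn (F.map f) a := hb
    have h1 : fn (F.map (q ≫ r)) b = fn (F.map ι) (fn (F.map c) a) := by
      rw [F.map_comp]
      show fn (F.map r) (fn (F.map q) b) = _
      rw [hb']
      show fn (F.map f ≫ F.map r) a = fn (F.map c ≫ F.map ι) a
      rw [← F.map_comp, ← F.map_comp, hfr]
    have h2 : b ∈ fn (F.map (q ≫ r)) ⁻¹' {fn (F.map ι) (fn (F.map c) a)} := h1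
    rw [← hF2.2] at h2
    obtain ⟨d, -, hd⟩ := h2
    refine ⟨d, ?_, hd⟩
    show fn (F.map p) d = a
    apply hF f hf
    rw [← hFcomm', hd, hb']

end Pool.Agent.Results.MP_6bfe6b_gt.FinitePreimages
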